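import Pool.Agent.W896.FD.Tri

/-!
# Graphs all of whose edges are shortest paths, and circuits of small formal degree
-/

set_option autoImplicit false
set_option maxHeartbeats 1000000

open Finset

namespace Pool.Agent.Q330.FD.Apsp

open Pool.Agent.W896.RK Pool.Agent.W896.HP Pool.Agent.W896.FD Pool.Agent.W896.FD.Star
open Pool.Agent.W896.FD.Tri (Mt mt_ne mt_symm mt_unique grS_0 grS_2 row row_inj deg_comp)

variable {n b w : ℕ}

/-- The weight of a pair: the bit `(e, j)` has the value `2 ^ j`. -/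
def wt (x : Sym2 (Fin n) × Fin (w + 1) → Bool) (e : Sym2 (Fin n)) : ℕ :=
  Nat.ofBits (fun j => x (e, j))

/-- All weights of the complete graph are `2`, `3`, `4` or `5`. -/
def Valid (x : Sym2 (Fin n) × Fin (w + 1) → Bool) : Prop :=
  ∀ e : Sym2 (Fin n), ¬ e.IsDiag → 2 ≤ wt x e ∧ wt x e ≤ 5

/-- The length of the path from `i` through the vertices of the list to `l`. -/
def len (x : Sym2 (Fin n) × Fin (w + 1) → Bool) (i : Fin n) : List (Fin n) → Fin n → ℕ
  | [], l => wt x s(i, l)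
  | j :: L, l => wt x s(i, j) + len x j L l

/-- Every edge is a shortest path. -/
def AllShortest (x : Sym2 (Fin n) × Fin (w + 1) → Bool) : Prop :=
  ∀ (i l : Fin n) (L : List (Fin n)), i ≠ l → (i :: (L ++ [l])).IsChain (· ≠ ·) →
    wt x s(i, l) ≤ len x i L l

/-- Some edge is longer than a path with two edges. -/
def Yes (x : Sym2 (Fin n) × Fin (w + 1) → Bool) : Prop :=
  ∃ i j l : Fin n, i ≠ j ∧ j ≠ l ∧ i ≠ l ∧ wt x s(i, j) + wt x s(j, l) < wt x s(i, l)

theorem allShortest_iff (x : Sym2 (Fin n) × Fin (w + 1) → Bool) : AllShortest x ↔ ¬ Yes x := by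
  constructor
  · rintro h ⟨i, j, l, hij, hjl, hil, h'⟩
    have := h i l [j] hil (by simp [hij, hjl])
    simp only [len] at this
    omega
  · intro h i l L
    induction L generalizing i with
    | nil => intro _ _; exact le_refl _
    | cons j L ih =>
      intro hil hc
      rw [List.cons_append, List.isChain_cons_cons] at hc
      simp only [len]
      by_cases hjl : j = l
      · rw [hjl]
        exact Nat.le_add_right _ _
      · have h1 := ih j hjl hc.2
        by_contra hcon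
        exact h ⟨i, j, l, hc.1, hjl, hil, by omega⟩

open Classical in
/-- The weight with the last bit zero for the pairs at `u`. -/
noncomputable def mag (u : Fin (n + 1)) (c : Fin b × Fin 4 → Fin n) (ρ : Equiv.Perm (Fin n))
    (e : Sym2 (Fin (n + 1))) : ℕ :=
  if ∃ v, row u v = e then 2 else
    if ∃ v w, Mt c ρ v w ∧ e = s(u.succAbove v, u.succAbove w) then 5 else 4

open Classical in
/-- The fixed bits. -/
noncomputable def fx (u : Fin (n + 1)) (c : Fin b × Fin 4 → Fin n) (ρ : Equiv.Perm (Fin n)) :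
    Sym2 (Fin (n + 1)) × Fin (w + 1) → Bool :=
  fun y => (mag u c ρ y.1).testBit y.2.val

/-- The place of the last bit of the weight. -/
def pl (u : Fin (n + 1)) (v : Fin n) : Sym2 (Fin (n + 1)) × Fin (w + 1) := (row u v, 0)

theorem pl_inj (u : Fin (n + 1)) : Function.Injective (pl (w := w) u) := by
  intro v v' h
  exact row_inj u (congrArg Prod.fst h)

/-- The instance. -/
noncomputable def insE (w : ℕ) (u : Fin (n + 1)) (c : Fin b × Fin 4 → Fin n)
    (ρ : Equiv.Perm (Fin n)) (z z' : Fin b → Bool) : Sym2 (Fin (n + 1)) × Fin (w + 1) → Bool :=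
  inS true (pl u) (fun ρ => fx u c ρ) c ρ z z'

theorem insE_other (u : Fin (n + 1)) (c : Fin b × Fin 4 → Fin n) (ρ : Equiv.Perm (Fin n))
    (z z' : Fin b → Bool) {y : Sym2 (Fin (n + 1)) × Fin (w + 1)} (h : ∀ v, pl u v ≠ y) :
    insE w u c ρ z z' y = fx u c ρ y := by
  unfold insE inS
  rw [fill_other _ _ h]

theorem insE_pl (u : Fin (n + 1)) (c : Fin b × Fin 4 → Fin n) (ρ : Equiv.Perm (Fin n))
    (z z' : Fin b → Bool) (v : Fin n) :
    insE w u c ρ z z' (row u v, 0) = grS true c z z' (ρ.symm v) := by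
  unfold insE inS
  exact fill_apply (pl_inj u) _ _ v

theorem succ_ne_row {u : Fin (n + 1)} {v w : Fin n} :
    ¬ ∃ t, row u t = s(u.succAbove v, u.succAbove w) := by
  rintro ⟨t, h⟩
  unfold row at h
  rw [Sym2.eq_iff] at h
  rcases h with ⟨h, -⟩ | ⟨h, -⟩
  · exact Fin.ne_succAbove u _ h
  · exact Fin.ne_succAbove u _ h

theorem mt_pair (u : Fin (n + 1)) (c : Fin b × Fin 4 ↪ Fin n) (ρ : Equiv.Perm (Fin n))
    (v w : Fin n) : (∃ v' w', Mt c ρ v' w' ∧ s(u.succAbove v, u.succAbove w) =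
      s(u.succAbove v', u.succAbove w')) ↔ Mt c ρ v w := by
  constructor
  · rintro ⟨v', w', h, he⟩
    rw [Sym2.eq_iff] at he
    rcases he with ⟨h1, h2⟩ | ⟨h1, h2⟩
    · rw [Fin.succAbove_right_injective h1, Fin.succAbove_right_injective h2]
      exact h
    · rw [Fin.succAbove_right_injective h1, Fin.succAbove_right_injective h2]
      exact mt_symm h
  · intro h
    exact ⟨v, w, h, rfl⟩

/-- The weights at `u`. -/
theorem wt_row (h5 : 5 < 2 ^ (w + 1)) (u : Fin (n + 1)) (c : Fin b × Fin 4 ↪ Fin n)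
    (ρ : Equiv.Perm (Fin n)) (z z' : Fin b → Bool) (v : Fin n) :
    wt (insE w u c ρ z z') (row u v) = 2 + (grS true c z z' (ρ.symm v)).toNat := by
  unfold wt
  have hb : (fun j => insE w u c ρ z z' (row u v, j)) =
      fun j : Fin (w + 1) => (Nat.bit (grS true c z z' (ρ.symm v)) 1).testBit j.val := by
    funext j
    rcases eq_or_ne j 0 with rfl | hj
    · rw [insE_pl, Fin.val_zero, Nat.testBit_bit_zero]
    · have hj' : ∃ j', j.val = j' + 1 := by
        refine ⟨j.val - 1, ?_⟩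
        have : j.val ≠ 0 := fun h => hj (Fin.ext h)
        omega
      obtain ⟨j', hj'⟩ := hj'
      rw [insE_other]
      · have h1 : ∃ v', row u v' = row u v := ⟨v, rfl⟩
        unfold fx mag
        simp only [h1, if_true]
        rw [hj', show (2 : ℕ) = Nat.bit false 1 by rfl, Nat.testBit_bit_succ,
          Nat.testBit_bit_succ]
      · intro v' h
        have h1 := congrArg Prod.snd h
        exact hj h1.symm
  rw [hb, Nat.ofBits_testBit, Nat.mod_eq_of_lt]
  · rw [Nat.bit_val]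
  · rw [Nat.bit_val]
    have := Bool.toNat_le (grS true c z z' (ρ.symm v))
    omega

/-- The other weights. -/
theorem wt_other (h5 : 5 < 2 ^ (w + 1)) (u : Fin (n + 1)) (c : Fin b × Fin 4 ↪ Fin n)
    (ρ : Equiv.Perm (Fin n)) (z z' : Fin b → Bool) (v v' : Fin n) :
    (Mt c ρ v v' ∧ wt (insE w u c ρ z z') s(u.succAbove v, u.succAbove v') = 5) ∨
    (¬ Mt c ρ v v' ∧ wt (insE w u c ρ z z') s(u.succAbove v, u.succAbove v') = 4) := by
  classical
  unfold wt
  have hb : (fun j => insE w u c ρ z z' (s(u.succAbove v, u.succAbove v'), j)) =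
      fun j : Fin (w + 1) => (mag u c ρ s(u.succAbove v, u.succAbove v')).testBit j.val := by
    funext j
    rw [insE_other]
    · rfl
    · intro t h
      exact succ_ne_row ⟨t, congrArg Prod.fst h⟩
  rw [hb, Nat.ofBits_testBit]
  by_cases hm : Mt c ρ v v'
  · refine Or.inl ⟨hm, ?_⟩
    have h1 : mag u c ρ s(u.succAbove v, u.succAbove v') = 5 := by
      unfold mag
      rw [if_neg succ_ne_row, if_pos ((mt_pair u c ρ v v').2 hm)]
    rw [h1, Nat.mod_eq_of_lt h5]
  · refine Or.inr ⟨hm, ?_⟩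
    have h1 : mag u c ρ s(u.succAbove v, u.succAbove v') = 4 := by
      unfold mag
      rw [if_neg succ_ne_row, if_neg (fun h => hm ((mt_pair u c ρ v v').1 h))]
    rw [h1, Nat.mod_eq_of_lt (by omega)]

theorem validE (h5 : 5 < 2 ^ (w + 1)) (u : Fin (n + 1)) (c : Fin b × Fin 4 ↪ Fin n)
    (ρ : Equiv.Perm (Fin n)) (z z' : Fin b → Bool) : Valid (insE w u c ρ z z') := by
  intro e he
  induction e with
  | _ x y =>
    rw [Sym2.mk_isDiag_iff] at he
    rcases Fin.eq_self_or_eq_succAbove u x with hx | ⟨x', hx⟩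
    · rcases Fin.eq_self_or_eq_succAbove u y with hy | ⟨y', hy⟩
      · exact absurd (hx.trans hy.symm) he
      · have := wt_row h5 u c ρ z z' y'
        unfold row at this
        rw [hx, hy, this]
        have h2 := Bool.toNat_le (grS true c z z' (ρ.symm y'))
        omega
    · rcases Fin.eq_self_or_eq_succAbove u y with hy | ⟨y', hy⟩
      · have := wt_row h5 u c ρ z z' x'
        unfold row at this
        rw [hx, hy, Sym2.eq_swap, this]
        have h2 := Bool.toNat_le (grS true c z z' (ρ.symm x'))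
        omega
      · rw [hx, hy]
        rcases wt_other h5 u c ρ z z' x' y' with ⟨-, h⟩ | ⟨-, h⟩ <;> rw [h] <;> norm_num

/-- Equal states: every edge is a shortest path. -/
theorem noE (h5 : 5 < 2 ^ (w + 1)) (u : Fin (n + 1)) (c : Fin b × Fin 4 ↪ Fin n)
    (ρ : Equiv.Perm (Fin n)) (z : Fin b → Bool) : ¬ Yes (insE w u c ρ z z) := by
  have row2 : ∀ v : Fin n, 2 ≤ wt (insE w u c ρ z z) s(u, u.succAbove v) ∧
      wt (insE w u c ρ z z) s(u, u.succAbove v) ≤ 3 := by
    intro v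
    have e1 := wt_row h5 u c ρ z z v
    unfold row at e1
    have h2 := Bool.toNat_le (grS true c z z (ρ.symm v))
    omega
  have pair4 : ∀ v v' : Fin n, 4 ≤ wt (insE w u c ρ z z) s(u.succAbove v, u.succAbove v') ∧
      wt (insE w u c ρ z z) s(u.succAbove v, u.succAbove v') ≤ 5 := by
    intro v v'
    rcases wt_other h5 u c ρ z z v v' with ⟨-, h⟩ | ⟨-, h⟩ <;> omega
  have key : ∀ v v' : Fin n, wt (insE w u c ρ z z) s(u.succAbove v, u.succAbove v') ≤
      wt (insE w u c ρ z z) s(u, u.succAbove v) + wt (insE w u c ρ z z) s(u, u.succAbove v') := by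
    intro v v'
    have r1 := row2 v
    have r2 := row2 v'
    rcases wt_other h5 u c ρ z z v v' with ⟨hm, h3⟩ | ⟨-, h3⟩
    · have e1 := wt_row h5 u c ρ z z v
      have e2 := wt_row h5 u c ρ z z v'
      unfold row at e1 e2
      obtain ⟨i, ⟨hv, hv'⟩ | ⟨hv, hv'⟩⟩ := hm
      · have a1 : grS true c z z (ρ.symm v) = z i := by
          rw [hv, Equiv.symm_apply_apply, grS_0]
        have a2 : grS true c z z (ρ.symm v') = !z i := by
          rw [hv', Equiv.symm_apply_apply, grS_2]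
        rw [a1] at e1
        rw [a2] at e2
        cases hz : z i <;> rw [hz] at e1 e2 <;>
          simp only [Bool.toNat_false, Bool.toNat_true, Bool.not_false, Bool.not_true] at e1 e2 <;>
          omega
      · have a1 : grS true c z z (ρ.symm v) = !z i := by
          rw [hv, Equiv.symm_apply_apply, grS_2]
        have a2 : grS true c z z (ρ.symm v') = z i := by
          rw [hv', Equiv.symm_apply_apply, grS_0]
        rw [a1] at e1
        rw [a2] at e2
        cases hz : z i <;> rw [hz] at e1 e2 <;>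
          simp only [Bool.toNat_false, Bool.toNat_true, Bool.not_false, Bool.not_true] at e1 e2 <;>
          omega
    · omega
  rintro ⟨x, y, t, hxy, hyt, hxt, h⟩
  rcases Fin.eq_self_or_eq_succAbove u x with hx | ⟨x', hx⟩
  · rcases Fin.eq_self_or_eq_succAbove u y with hy | ⟨y', hy⟩
    · exact hxy (hx.trans hy.symm)
    rcases Fin.eq_self_or_eq_succAbove u t with ht | ⟨t', ht⟩
    · exact hxt (hx.trans ht.symm)
    rw [hx, hy, ht] at h
    have a1 := row2 y'
    have a2 := row2 t'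
    have a3 := pair4 y' t'
    omega
  rcases Fin.eq_self_or_eq_succAbove u y with hy | ⟨y', hy⟩
  · rcases Fin.eq_self_or_eq_succAbove u t with ht | ⟨t', ht⟩
    · exact hyt (hy.trans ht.symm)
    rw [hx, hy, ht, Sym2.eq_swap (a := u.succAbove x') (b := u)] at h
    have a1 := key x' t'
    omega
  rcases Fin.eq_self_or_eq_succAbove u t with ht | ⟨t', ht⟩
  · rw [hx, hy, ht, Sym2.eq_swap (a := u.succAbove y') (b := u),
      Sym2.eq_swap (a := u.succAbove x') (b := u)] at h
    have a1 := row2 y'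
    have a2 := row2 x'
    have a3 := pair4 x' y'
    omega
  · rw [hx, hy, ht] at h
    have a1 := pair4 x' y'
    have a2 := pair4 y' t'
    have a3 := pair4 x' t'
    omega

/-- Different states: an edge which is not a shortest path. -/
theorem yesE (u : Fin (n + 1)) (h5 : 5 < 2 ^ (w + 1)) (c : Fin b × Fin 4 ↪ Fin n)
    (ρ : Equiv.Perm (Fin n)) (z z' : Fin b → Bool) {i : Fin b} (h : z i = false)
    (h' : z' i = true) : Yes (insE w u c ρ z z') := by
  have hm : Mt c ρ (ρ (c (i, 0))) (ρ (c (i, 2))) := ⟨i, Or.inl ⟨rfl, rfl⟩⟩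
  have hne := mt_ne c ρ hm
  refine ⟨u.succAbove (ρ (c (i, 0))), u, u.succAbove (ρ (c (i, 2))),
    (Fin.ne_succAbove u _).symm, Fin.ne_succAbove u _,
    fun h => hne (Fin.succAbove_right_injective h), ?_⟩
  have e1 := wt_row h5 u c ρ z z' (ρ (c (i, 0)))
  have e2 := wt_row h5 u c ρ z z' (ρ (c (i, 2)))
  unfold row at e1 e2
  rw [Equiv.symm_apply_apply, grS_0, h] at e1
  rw [Equiv.symm_apply_apply, grS_2, h'] at e2
  simp only [Bool.toNat_false, Bool.not_true, add_zero] at e1 e2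
  rw [Sym2.eq_swap (a := u.succAbove (ρ (c (i, 0)))) (b := u), e1, e2]
  rcases wt_other h5 u c ρ z z' (ρ (c (i, 0))) (ρ (c (i, 2))) with ⟨-, h3⟩ | ⟨h3, -⟩
  · rw [h3]; norm_num
  · exact absurd hm h3

/-- One row. -/
theorem ap_row (k n w : ℕ) (h5 : 5 < 2 ^ (w + 1)) (u : Fin (n + 1)) (R : Type) [Fintype R]
    [Nonempty R] (U : R → Circ (Sym2 (Fin (n + 1)) × Fin (w + 1)))
    (hU : ∀ r x, Valid x → (U r).Val x (U r).out → ¬ Yes x)
    (hc : ∀ x, Valid x → ¬ Yes x →
      Nat.card R ≤ 2 ^ (n / 2 ^ (60 * (k + 1))) * Nat.card {r // (U r).Val x (U r).out})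
    (hd : ∀ r, ∃ d : (U r).G → Fin n → ℕ, IsDeg (U r) (pl u) d ∧
      ∑ e, d (U r).out e ≤ k * n) :
    ∃ r, n ≤ 2 ^ (60 * (k + 1)) * (Nat.log 2 (Fintype.card (U r).G) + 1) := by
  classical
  obtain ⟨b, hb⟩ : ∃ b, b = n / 4 := ⟨_, rfl⟩
  have hb1 : n < 4 * (b + 1) := by rw [hb]; exact Nat.lt_mul_div_succ n (by norm_num)
  have hb2 : 4 * b ≤ n := by rw [hb]; exact Nat.mul_div_le _ _
  obtain ⟨c⟩ : Nonempty (Fin b × Fin 4 ↪ Fin n) := by
    apply Function.Embedding.nonempty_of_card_le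
    rw [Fintype.card_prod, Fintype.card_fin, Fintype.card_fin, Fintype.card_fin]
    omega
  refine Star.final (ν := true) k (b := b) (by omega) (pl_inj u) (fun ρ => fx u c ρ) c
    (fun ρ z z' => ¬ Yes (insE w u c ρ z z')) 0 ?_ ?_ R U ?_ ?_ hd
  · rw [vol_zero]
    exact Nat.one_le_two_pow
  · rintro ρ z z' h ⟨h1, h2⟩
    unfold dst at h
    obtain ⟨i, hi⟩ := card_pos.1 h
    have hi' := (mem_filter.1 hi).2
    cases hz : z i with
    | true =>
      cases hz' : z' i with
      | true => exact hi' (by rw [hz, hz'])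
      | false => exact h2 (yesE u h5 c ρ z' z hz' hz)
    | false =>
      cases hz' : z' i with
      | true => exact h1 (yesE u h5 c ρ z z' hz hz')
      | false => exact hi' (by rw [hz, hz'])
  · intro r ρ z z' h
    exact hU r _ (validE h5 u c ρ z z') h
  · intro ρ z
    exact hc _ (validE h5 u c ρ z z) (noE h5 u c ρ z)

/-- One vertex. -/
theorem ap_vertex (k n w : ℕ) (h5 : 5 < 2 ^ (w + 1)) (u : Fin n) (R : Type) [Fintype R]
    [Nonempty R] (U : R → Circ (Sym2 (Fin n) × Fin (w + 1)))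
    (hU : ∀ r x, Valid x → (U r).Val x (U r).out → ¬ Yes x)
    (hc : ∀ x, Valid x → ¬ Yes x →
      Nat.card R ≤ 2 ^ (n / 2 ^ (60 * (k + 3))) * Nat.card {r // (U r).Val x (U r).out})
    (hd : ∀ r, ∃ d : (U r).G → Sym2 (Fin n) × Fin (w + 1) → ℕ, IsDeg (U r) id d ∧
      ∑ v, d (U r).out (s(u, v), 0) ≤ k * n) :
    ∃ r, n ≤ 2 ^ (60 * (k + 3)) * (Nat.log 2 (Fintype.card (U r).G) + 1) := by
  classical
  have hk : k + 1 ≤ 2 ^ k := Nat.lt_two_pow_self
  have hpow : 2 ^ (60 * (k + 3)) = 2 ^ 60 * 2 ^ (60 * (k + 2)) := by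
    rw [← pow_add]; congr 1; ring
  have hbig : k + 2 ≤ 2 ^ (60 * (k + 3)) := by
    calc k + 2 ≤ 2 ^ k * 2 ^ 1 := by omega
      _ = 2 ^ (k + 1) := by rw [pow_add]
      _ ≤ _ := Nat.pow_le_pow_right (by norm_num) (by omega)
  rcases Nat.lt_or_ge n (k + 2) with hn | hn
  · obtain ⟨r⟩ := (inferInstance : Nonempty R)
    exact ⟨r, (hn.le.trans hbig).trans (Nat.le_mul_of_pos_right _ (by omega))⟩
  obtain ⟨n', rfl⟩ : ∃ n', n = n' + 1 := ⟨n - 1, by omega⟩
  have hpos : 0 < 2 ^ (60 * (k + 2)) := Nat.two_pow_pos _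
  have hq : (n' + 1) / 2 ^ (60 * (k + 3)) ≤ n' / 2 ^ (60 * (k + 1 + 1)) := by
    rw [Nat.le_div_iff_mul_le (Nat.two_pow_pos _)]
    have h1 : (n' + 1) / 2 ^ (60 * (k + 3)) * 2 ^ (60 * (k + 3)) ≤ n' + 1 :=
      Nat.div_mul_le_self _ _
    have h2 : (n' + 1) / 2 ^ (60 * (k + 3)) * (2 * 2 ^ (60 * (k + 2))) ≤ n' + 1 := by
      refine le_trans (Nat.mul_le_mul_left _ ?_) h1
      rw [hpow]
      exact Nat.mul_le_mul_right _ (by norm_num)
    have e1 : 60 * (k + 1 + 1) = 60 * (k + 2) := by ring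
    rw [e1]
    have h3 : (n' + 1) / 2 ^ (60 * (k + 3)) * (2 * 2 ^ (60 * (k + 2))) =
        2 * ((n' + 1) / 2 ^ (60 * (k + 3)) * 2 ^ (60 * (k + 2))) := by ring
    rw [h3] at h2
    omega
  obtain ⟨r, hr⟩ := ap_row (k + 1) n' w h5 u R U hU
    (fun x hx hx' => (hc x hx hx').trans
      (Nat.mul_le_mul_right _ (Nat.pow_le_pow_right (by norm_num) hq))) (fun r => by
      obtain ⟨d, hd1, hd2⟩ := hd r
      refine ⟨_, deg_comp hd1 (pl u), ?_⟩
      have h1 : ∑ v, d (U r).out (pl u v) ≤ ∑ v, d (U r).out (s(u, v), 0) := by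
        rw [Fin.sum_univ_succAbove _ u]
        unfold pl row
        exact Nat.le_add_left _ _
      refine h1.trans (hd2.trans ?_)
      nlinarith)
  refine ⟨r, ?_⟩
  have e1 : 60 * (k + 1 + 1) = 60 * (k + 2) := by ring
  rw [e1] at hr
  rw [hpow]
  have h5 : 1 ≤ 2 ^ (60 * (k + 2)) * (Nat.log 2 (Fintype.card (U r).G) + 1) :=
    Nat.mul_pos hpos (by omega)
  nlinarith

/-- All last bits. -/
theorem ap_total (k n w : ℕ) (h5 : 5 < 2 ^ (w + 1)) (U : Circ (Sym2 (Fin n) × Fin (w + 1)))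
    (hU : ∀ x, Valid x → (U.Val x U.out ↔ ¬ Yes x))
    (hd : ∃ d : U.G → Sym2 (Fin n) × Fin (w + 1) → ℕ, IsDeg U id d ∧
      ∑ e, d U.out (e, 0) ≤ k * n ^ 2) :
    n ≤ 2 ^ (60 * (2 * k + 3)) * (Nat.log 2 (Fintype.card U.G) + 1) := by
  classical
  rcases Nat.eq_zero_or_pos n with hn | hn
  · exact hn.le.trans (Nat.zero_le _)
  obtain ⟨d, hd1, hd2⟩ := hd
  have h1 : ∑ u : Fin n, ∑ v : Fin n, d U.out (s(u, v), 0) ≤ 2 * ∑ e, d U.out (e, 0) := by
    rw [← Fintype.sum_prod_type']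
    rw [← sum_fiberwise (univ : Finset (Fin n × Fin n)) (fun x => s(x.1, x.2))
      (fun x => d U.out (s(x.1, x.2), 0)), mul_sum]
    refine sum_le_sum (fun e _ => ?_)
    have h2 : ∑ x ∈ univ.filter (fun x : Fin n × Fin n => s(x.1, x.2) = e),
        d U.out (s(x.1, x.2), 0) =
        ∑ x ∈ univ.filter (fun x : Fin n × Fin n => s(x.1, x.2) = e), d U.out (e, 0) :=
      sum_congr rfl (fun x hx => by rw [(mem_filter.1 hx).2])
    rw [h2, sum_const, smul_eq_mul]
    apply Nat.mul_le_mul_right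
    induction e with
    | _ x y =>
      have h3 : univ.filter (fun z : Fin n × Fin n => s(z.1, z.2) = s(x, y)) ⊆
          {(x, y), (y, x)} := by
        intro z hz
        have := (mem_filter.1 hz).2
        rw [Sym2.eq_iff] at this
        rw [mem_insert, mem_singleton]
        rcases this with ⟨h4, h5⟩ | ⟨h4, h5⟩
        · exact Or.inl (Prod.ext h4 h5)
        · exact Or.inr (Prod.ext h4 h5)
      exact (card_le_card h3).trans card_le_two
  obtain ⟨u, hu⟩ : ∃ u : Fin n, ∑ v, d U.out (s(u, v), 0) ≤ 2 * k * n := by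
    by_contra hcon
    push Not at hcon
    have h2 : ∑ u : Fin n, (2 * k * n) < ∑ u : Fin n, ∑ v : Fin n, d U.out (s(u, v), 0) := by
      refine sum_lt_sum_of_nonempty ?_ (fun u _ => hcon u)
      exact ⟨⟨0, hn⟩, mem_univ _⟩
    rw [sum_const, card_univ, Fintype.card_fin, smul_eq_mul] at h2
    have h3 : n * (2 * k * n) = 2 * (k * n ^ 2) := by ring
    omega
  obtain ⟨r, hr⟩ := ap_vertex (2 * k) n w h5 u Unit (fun _ => U) (fun _ x hx h => (hU x hx).1 h)
    (fun x hx h => by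
      have h2 : Nat.card {r : Unit // U.Val x U.out} = 1 := by
        rw [Nat.card_eq_one_iff_unique]
        exact ⟨⟨fun a b => Subtype.ext rfl⟩, ⟨⟨(), (hU x hx).2 h⟩⟩⟩
      rw [h2, mul_one, Nat.card_unique]
      exact Nat.one_le_two_pow) (fun _ => ⟨d, hd1, hu⟩)
  exact hr

end Pool.Agent.Q330.FD.Apsp
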