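import Pool.Agent.W896.FD.Tri

/-!
# OMV over the field with two elements, and circuits of small formal degree
-/

set_option autoImplicit false
set_option maxHeartbeats 1000000

open Finset

namespace Pool.Agent.Q330.FD.Omv

open Pool.Agent.W896.RK Pool.Agent.W896.HP Pool.Agent.W896.FD Pool.Agent.W896.FD.Star
open Pool.Agent.W896.FD.Tri (deg_comp)

variable {n b : ℕ}

/-- The bits of the input: `mat a b` is the entry `(a, b)` of the matrix, `left i a` and `right i b`
are the coordinates of the `i`-th pair of vectors. -/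
inductive Bit (n : ℕ) : Type
  | mat : Fin n → Fin n → Bit n
  | left : Fin n → Fin n → Bit n
  | right : Fin n → Fin n → Bit n

/-- A bit as an element of the field with two elements. -/
def val (v : Bool) : ZMod 2 := if v then 1 else 0

/-- The product `u_iᵀ M v_i` over the field with two elements. -/
def prod (x : Bit n → Bool) (i : Fin n) : ZMod 2 :=
  ∑ a, ∑ b, val (x (.left i a)) * val (x (.mat a b)) * val (x (.right i b))

/-- All products are zero. -/
def AllZero (x : Bit n → Bool) : Prop := ∀ i, prod x i = 0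

/-- The places of the entries of a row. -/
def pl (a : Fin n) (b : Fin n) : Bit n := .mat a b

theorem pl_inj (a : Fin n) : Function.Injective (pl a) := by
  intro v v' h
  unfold pl at h
  injection h

open Classical in
/-- The fixed bits: the left vectors are the unit vector `a`, the right vector number `i` is the
sum of the unit vectors of the pair number `i`. -/
noncomputable def fx (a : Fin n) (c : Fin b × Fin 4 → Fin n) (ρ : Equiv.Perm (Fin n)) :
    Bit n → Bool
  | .mat _ _ => false
  | .left _ a' => decide (a' = a)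
  | .right i t => decide (∃ j : Fin b, j.val = i.val ∧ (t = ρ (c (j, 0)) ∨ t = ρ (c (j, 2))))

/-- The instance. -/
noncomputable def ins (a : Fin n) (c : Fin b × Fin 4 → Fin n)
    (ρ : Equiv.Perm (Fin n)) (z z' : Fin b → Bool) : Bit n → Bool :=
  inS false (pl a) (fun ρ => fx a c ρ) c ρ z z'

theorem ins_other (a : Fin n) (c : Fin b × Fin 4 → Fin n) (ρ : Equiv.Perm (Fin n))
    (z z' : Fin b → Bool) {y : Bit n} (h : ∀ v, pl a v ≠ y) :
    ins a c ρ z z' y = fx a c ρ y := by
  unfold ins inS
  rw [fill_other _ _ h]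

theorem ins_pl (a : Fin n) (c : Fin b × Fin 4 → Fin n) (ρ : Equiv.Perm (Fin n))
    (z z' : Fin b → Bool) (v : Fin n) :
    ins a c ρ z z' (.mat a v) = grS false c z z' (ρ.symm v) := by
  unfold ins inS
  exact fill_apply (pl_inj a) _ _ v

theorem ins_left (a : Fin n) (c : Fin b × Fin 4 → Fin n) (ρ : Equiv.Perm (Fin n))
    (z z' : Fin b → Bool) (i a' : Fin n) :
    ins a c ρ z z' (.left i a') = decide (a' = a) := by
  rw [ins_other]
  · unfold fx
    congr
  · intro v h
    unfold pl at h
    injection h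

theorem ins_right (a : Fin n) (c : Fin b × Fin 4 → Fin n) (ρ : Equiv.Perm (Fin n))
    (z z' : Fin b → Bool) (i t : Fin n) :
    ins a c ρ z z' (.right i t) = true ↔
      ∃ j : Fin b, j.val = i.val ∧ (t = ρ (c (j, 0)) ∨ t = ρ (c (j, 2))) := by
  rw [ins_other]
  · unfold fx
    rw [decide_eq_true_iff]
  · intro v h
    unfold pl at h
    injection h

theorem gr0 (c : Fin b × Fin 4 ↪ Fin n) (z z' : Fin b → Bool) (i : Fin b) :
    grS false c z z' (c (i, 0)) = z i := by
  unfold grS
  exact fill_apply (prS_inj c.injective) _ _ (.inl i)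

theorem gr2 (c : Fin b × Fin 4 ↪ Fin n) (z z' : Fin b → Bool) (i : Fin b) :
    grS false c z z' (c (i, 2)) = z' i := by
  unfold grS
  refine (fill_apply (prS_inj c.injective) (fun _ => false)
    (Sum.elim z (fun i => xor false (z' i))) (.inr i)).trans ?_
  change xor false (z' i) = _
  rw [Bool.false_xor]

/-- The products of the instance. -/
theorem prod_ins (a : Fin n) (c : Fin b × Fin 4 ↪ Fin n) (ρ : Equiv.Perm (Fin n))
    (z z' : Fin b → Bool) (i : Fin n) :
    prod (ins a c ρ z z') i =
      ∑ t, val (grS false c z z' (ρ.symm t)) * val (ins a c ρ z z' (.right i t)) := by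
  unfold prod
  rw [sum_eq_single a]
  · refine sum_congr rfl fun t _ => ?_
    rw [ins_left, ins_pl]
    simp [val]
  · intro a' _ h
    apply sum_eq_zero
    intro t _
    rw [ins_left]
    simp [val, h]
  · intro h
    exact absurd (mem_univ a) h

theorem prod_small (a : Fin n) (c : Fin b × Fin 4 ↪ Fin n) (ρ : Equiv.Perm (Fin n))
    (z z' : Fin b → Bool) (i : Fin n) (j : Fin b) (hj : j.val = i.val) :
    prod (ins a c ρ z z') i = val (z j) + val (z' j) := by
  classical
  rw [prod_ins]
  have hne : ρ (c (j, 0)) ≠ ρ (c (j, 2)) := by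
    intro h
    have := c.injective (ρ.injective h)
    rw [Prod.mk.injEq] at this
    exact absurd this.2 (by decide)
  have h1 : ∀ t, ins a c ρ z z' (.right i t) = true ↔
      t ∈ ({ρ (c (j, 0)), ρ (c (j, 2))} : Finset (Fin n)) := by
    intro t
    rw [ins_right, mem_insert, mem_singleton]
    constructor
    · rintro ⟨j', h, h'⟩
      have : j' = j := Fin.ext (h.trans hj.symm)
      rw [this] at h'
      exact h'
    · intro h
      exact ⟨j, hj, h⟩
  have h2 : ∀ t, val (grS false c z z' (ρ.symm t)) * val (ins a c ρ z z' (.right i t)) =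
      if t ∈ ({ρ (c (j, 0)), ρ (c (j, 2))} : Finset (Fin n)) then
        val (grS false c z z' (ρ.symm t)) else 0 := by
    intro t
    by_cases h : t ∈ ({ρ (c (j, 0)), ρ (c (j, 2))} : Finset (Fin n))
    · rw [if_pos h, (h1 t).2 h]
      simp [val]
    · rw [if_neg h]
      have h3 : ins a c ρ z z' (.right i t) = false := by
        rw [Bool.eq_false_iff]
        intro h4
        exact h ((h1 t).1 h4)
      rw [h3]
      simp [val]
  rw [sum_congr rfl fun t _ => h2 t, ← sum_filter, filter_mem_eq_inter, univ_inter,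
    sum_pair hne, Equiv.symm_apply_apply, Equiv.symm_apply_apply, gr0, gr2]

theorem prod_large (a : Fin n) (c : Fin b × Fin 4 ↪ Fin n) (ρ : Equiv.Perm (Fin n))
    (z z' : Fin b → Bool) (i : Fin n) (hi : b ≤ i.val) :
    prod (ins a c ρ z z') i = 0 := by
  rw [prod_ins]
  apply sum_eq_zero
  intro t _
  have h3 : ins a c ρ z z' (.right i t) = false := by
    rw [Bool.eq_false_iff]
    intro h4
    obtain ⟨j, hj, -⟩ := (ins_right a c ρ z z' i t).1 h4
    have := j.isLt
    omega
  rw [h3]
  simp [val]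

theorem val_add_self (v : Bool) : val v + val v = 0 := by
  cases v <;> decide

theorem val_add_ne {v w : Bool} (h : v ≠ w) : val v + val w ≠ 0 := by
  cases v <;> cases w <;> first | exact absurd rfl h | decide

/-- Equal states: all products are zero. -/
theorem allZero_ins (a : Fin n) (c : Fin b × Fin 4 ↪ Fin n) (ρ : Equiv.Perm (Fin n))
    (z : Fin b → Bool) : AllZero (ins a c ρ z z) := by
  intro i
  rcases Nat.lt_or_ge i.val b with h | h
  · rw [prod_small a c ρ z z i ⟨i.val, h⟩ rfl, val_add_self]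
  · exact prod_large a c ρ z z i h

/-- Different states: some product is one. -/
theorem not_allZero (hb : b ≤ n) (a : Fin n) (c : Fin b × Fin 4 ↪ Fin n)
    (ρ : Equiv.Perm (Fin n)) {z z' : Fin b → Bool} {j : Fin b} (h : z j ≠ z' j) :
    ¬ AllZero (ins a c ρ z z') := by
  intro h0
  have h1 := h0 ⟨j.val, lt_of_lt_of_le j.isLt hb⟩
  rw [prod_small a c ρ z z' _ j rfl] at h1
  exact val_add_ne h h1

/-- One row. -/
theorem omv_row (k n : ℕ) (a : Fin n) (R : Type) [Fintype R] [Nonempty R]
    (U : R → Circ (Bit n))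
    (hU : ∀ r x, (U r).Val x (U r).out → AllZero x)
    (hc : ∀ x, AllZero x →
      Nat.card R ≤ 2 ^ (n / 2 ^ (60 * (k + 1))) * Nat.card {r // (U r).Val x (U r).out})
    (hd : ∀ r, ∃ d : (U r).G → Bit n → ℕ, IsDeg (U r) id d ∧
      ∑ t, d (U r).out (.mat a t) ≤ k * n) :
    ∃ r, n ≤ 2 ^ (60 * (k + 1)) * (Nat.log 2 (Fintype.card (U r).G) + 1) := by
  classical
  obtain ⟨b, hb⟩ : ∃ b, b = n / 4 := ⟨_, rfl⟩
  have hb1 : n < 4 * (b + 1) := by rw [hb]; exact Nat.lt_mul_div_succ n (by norm_num)
  have hb2 : 4 * b ≤ n := by rw [hb]; exact Nat.mul_div_le _ _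
  obtain ⟨c⟩ : Nonempty (Fin b × Fin 4 ↪ Fin n) := by
    apply Function.Embedding.nonempty_of_card_le
    rw [Fintype.card_prod, Fintype.card_fin, Fintype.card_fin, Fintype.card_fin]
    omega
  refine Star.final (ν := false) k (b := b) (by omega) (pl_inj a) (fun ρ => fx a c ρ) c
    (fun ρ z z' => AllZero (ins a c ρ z z')) 0 ?_ ?_ R U ?_ ?_ ?_
  · rw [vol_zero]
    exact Nat.one_le_two_pow
  · rintro ρ z z' h ⟨h1, h2⟩
    unfold dst at h
    obtain ⟨i, hi⟩ := card_pos.1 h
    exact not_allZero (by omega) a c ρ (mem_filter.1 hi).2 h1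
  · intro r ρ z z' h
    exact hU r _ h
  · intro ρ z
    exact hc _ (allZero_ins a c ρ z)
  · intro r
    obtain ⟨d, hd1, hd2⟩ := hd r
    exact ⟨_, deg_comp hd1 (pl a), hd2⟩

/-- The whole matrix. -/
theorem omv_total (k n : ℕ) (U : Circ (Bit n))
    (hU : ∀ x, U.Val x U.out ↔ AllZero x)
    (hd : ∃ d : U.G → Bit n → ℕ, IsDeg U id d ∧
      ∑ a, ∑ t, d U.out (.mat a t) ≤ k * n ^ 2) :
    n ≤ 2 ^ (60 * (k + 1)) * (Nat.log 2 (Fintype.card U.G) + 1) := by
  classical
  rcases Nat.eq_zero_or_pos n with hn | hn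
  · exact hn.le.trans (Nat.zero_le _)
  obtain ⟨d, hd1, hd2⟩ := hd
  obtain ⟨a, ha⟩ : ∃ a : Fin n, ∑ t, d U.out (.mat a t) ≤ k * n := by
    by_contra hcon
    push Not at hcon
    have h2 : ∑ a : Fin n, (k * n) < ∑ a : Fin n, ∑ t, d U.out (.mat a t) := by
      refine sum_lt_sum_of_nonempty ?_ (fun u _ => hcon u)
      exact ⟨⟨0, hn⟩, mem_univ _⟩
    rw [sum_const, card_univ, Fintype.card_fin, smul_eq_mul] at h2
    have h3 : n * (k * n) = k * n ^ 2 := by ring
    omega
  obtain ⟨r, hr⟩ := omv_row k n a Unit (fun _ => U) (fun _ x h => (hU x).1 h)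
    (fun x hx => by
      have h2 : Nat.card {r : Unit // U.Val x U.out} = 1 := by
        rw [Nat.card_eq_one_iff_unique]
        exact ⟨⟨fun a b => Subtype.ext rfl⟩, ⟨⟨(), (hU x).2 hx⟩⟩⟩
      rw [h2, mul_one, Nat.card_unique]
      exact Nat.one_le_two_pow) (fun _ => ⟨d, hd1, ha⟩)
  exact hr

end Pool.Agent.Q330.FD.Omv
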